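import Pool.Agent.Q88.MT.Stm

/-!
# Project MT, second part: the self-adjoint case

If the exponents are symmetric (`k ∘ τ = -k` for a permutation `τ`), `T k` is self-adjoint and its spectrum on
both subspaces is the interval `[μ, 1]`, `μ` the minimum of the symbol.
-/

set_option autoImplicit false

open Set Filter Topology

noncomputable section

namespace Pool.Agent.Q88.MT

/-- The infimum of the real part of the symbol. -/
def mu {n : ℕ} (k : Fin n → ℤ) : ℝ := sInf (range fun t : Fin n → ℝ => (sy k t).re)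

/-- **JOB REA** (0.4 h), `theorem rea : S_rea`.
`conj (sy k t) = sy (-k) t = sy (k ∘ τ) t = sy k t` (reindex the sum over `π` by `π ↦ τ * π` or `τ⁻¹ * π`:
`k (τ (π j)) = - k (π j)`). The values of `sy` have modulus at most `1` (average of `n!` numbers of modulus `1`),
`sy k 0 = 1`. Attained: the exponentials do not change if `t` is changed by a vector in `2 π ℤ^n`, so the range is
the image of the compact cube `[0, 2π]^n` under a continuous function (`IsCompact.exists_isMinOn`), and
`mu k` is the minimum. The range of the continuous real function on the connected space `Fin n → ℝ` is an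
interval containing `mu k` and `1` (`isPreconnected_univ.image`, `IsPreconnected.Icc_subset` or
`mem_range_of_exists_le_of_exists_ge`). -/
def S_rea : Prop :=
  ∀ (n : ℕ) (k : Fin n → ℤ) (τ : Equiv.Perm (Fin n)), (∀ j, k (τ j) = - k j) →
    (∀ t, (sy k t).im = 0 ∧ mu k ≤ (sy k t).re) ∧ mu k ≤ 1 ∧
      ∀ x : ℝ, mu k ≤ x → x ≤ 1 → ∃ t, sy k t = (x : ℂ)

/-- **JOB FOU** (1.2 h), `theorem fou (h : S_bas) (h1 : S_bdd) (h2 : S_rea) : S_fou`.
The function `y ↦ conj (u y) * T k u y` is summable (product of two square summable functions), and both sides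
of the inequality are continuous in `u` for the norm `nn`; finitely supported `u` are dense
(`lp.hasSum_single` or truncation to `{x | ∀ j, x j < R}`), so let `u x = 0` unless all `x j < R`. Let `κ` be
the maximum of the `|k j|` and `N > R + κ`; for `ξ ∈ (Fin n → Fin N)` put `t = 2 π ξ / N` and
`û ξ = ∑ x, u x * exp (-i ∑ j, x j t j)`. Orthogonality of the characters of `ℤ/N` gives
`∑ ξ, ‖û ξ‖ ^ 2 = N ^ n nn u ^ 2` and `∑ ξ, exp (-i ∑ j, k (π j) t j) ‖û ξ‖ ^ 2 = N ^ n ∑ y, conj (u y) * W (k ∘ π) u y`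
(the indices `x`, `y` with `y ≡ x + k ∘ π` modulo `N` are exactly those with `y = x + k ∘ π`, since
`|x j|, |y j| < R` and `|k| ≤ κ`). Averaging over `π`:
`∑ y, conj (u y) * T k u y = N ^ (-n) ∑ ξ, sy k (- t ξ) ‖û ξ‖ ^ 2`, and `sy k (-t)` is real and at least `mu k`
(`S_rea`). (Alternatively use Mathlib's Fourier series on the torus, or the discrete Fourier transform on
`Fin n → ZMod N`, `AddChar` orthogonality.) -/
def S_fou : Prop :=
  ∀ (n : ℕ) (k : Fin n → ℤ) (τ : Equiv.Perm (Fin n)), (∀ j, k (τ j) = - k j) →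
    ∀ u : X n → ℂ, Sq u → Summable (fun y => (starRingEnd ℂ) (u y) * T k u y) ∧
      (∑' y, (starRingEnd ℂ) (u y) * T k u y).im = 0 ∧
      mu k * nn u ^ 2 ≤ (∑' y, (starRingEnd ℂ) (u y) * T k u y).re

/-- **JOB COE** (1.0 h), `theorem coe (h : S_bas) (h1 : S_bdd) (h2 : S_inv) (h3 : S_fou) : S_coe`.
`M n b` is a Hilbert space (closed subspace of `lp (fun _ : X n => ℂ) 2`), `A = T k - l` on it. With
`q = ∑ conj (u y) * T k u y` (real, at least `mu k * nn u ^ 2`): `⟨u, A u⟩ = q - l nn u ^ 2`. If `l.im ≠ 0`, its imaginary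
part has modulus `|l.im| nn u ^ 2`; if `l.im = 0` and `l.re < mu k`, its real part is at least
`(mu k - l.re) nn u ^ 2`. In both cases `c nn u ^ 2 ≤ |⟨u, A u⟩|` with `c > 0`, and the same for the adjoint
(`⟨A* u, u⟩ = ⟨u, A u⟩`); so `A` is bounded below with closed range and dense range (the orthogonal complement of
the range is the kernel of the adjoint), that is, bijective (or the Lax-Milgram theorem in Mathlib,
`IsCoercive.continuousLinearEquivOfBilin`). -/
def S_coe : Prop :=
  ∀ (n : ℕ) (k : Fin n → ℤ) (τ : Equiv.Perm (Fin n)) (b : Bool), (∀ j, k (τ j) = - k j) →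
    ∀ l ∈ Sp b k, l.im = 0 ∧ mu k ≤ l.re

/-- **JOB SAD** (0.3 h), `theorem sad (h : S_rea) (h1 : S_coe) (h2 : S_fin) : S_sad`.
`⊆`: `S_coe` and `‖l‖ ≤ 1` (part (4) of `S_fin`; `l = l.re`). `⊇`: `S_rea` gives `t` with `sy k t = l`; part (3) of
`S_fin`. -/
def S_sad : Prop :=
  ∀ (n : ℕ) (k : Fin n → ℤ) (τ : Equiv.Perm (Fin n)) (b : Bool), (∀ j, k (τ j) = - k j) →
    Sp b k = (fun x : ℝ => (x : ℂ)) '' Icc (mu k) 1

end Pool.Agent.Q88.MT
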