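import Mathlib

/-!
# Project MT: norms and spectra of symmetric and antisymmetric tensor products of powers of the shift

The Hilbert space tensor power of `ℓ²` is `ℓ²(ℕ^n)`; `T k` is the average over all permutations `π` of the
tensor products of the powers `S^(k (π 1)), …, S^(k (π n))` (`S^(-m)` means the `m`-th power of the adjoint).
-/

set_option autoImplicit false

open Set Filter Topology

noncomputable section

namespace Pool.Agent.Q88.MT

/-- Indices of the orthonormal basis of the tensor power. -/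
abbrev X (n : ℕ) := Fin n → ℕ

/-- Square summable. -/
def Sq {n : ℕ} (u : X n → ℂ) : Prop := Summable fun x => ‖u x‖ ^ 2

/-- The norm. -/
def nn {n : ℕ} (u : X n → ℂ) : ℝ := Real.sqrt (∑' x, ‖u x‖ ^ 2)

/-- The tensor product of the powers `S^(k 1), …, S^(k n)`: `e_x ↦ e_(x + k)`, or `0`. -/
def W {n : ℕ} (k : Fin n → ℤ) (u : X n → ℂ) (y : X n) : ℂ :=
  if ∀ j, 0 ≤ (y j : ℤ) - k j then u (fun j => ((y j : ℤ) - k j).toNat) else 0

/-- The average over all permutations. -/
def T {n : ℕ} (k : Fin n → ℤ) (u : X n → ℂ) (y : X n) : ℂ :=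
  1 / (n.factorial : ℂ) * ∑ π : Equiv.Perm (Fin n), W (fun j => k (π j)) u y

/-- The trivial character (`b = false`) or the sign (`b = true`). -/
def chi {n : ℕ} (b : Bool) (π : Equiv.Perm (Fin n)) : ℂ :=
  if b then ((Equiv.Perm.sign π : ℤ) : ℂ) else 1

/-- The symmetric (`b = false`) or antisymmetric (`b = true`) subspace. -/
def M (n : ℕ) (b : Bool) : Set (X n → ℂ) :=
  {u | Sq u ∧ ∀ (π : Equiv.Perm (Fin n)) (x : X n), u (fun j => x (π j)) = chi b π * u x}

/-- The spectrum of the restriction of `T k` to the subspace. -/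
def Sp {n : ℕ} (b : Bool) (k : Fin n → ℤ) : Set ℂ :=
  {l | ¬ ∀ v ∈ M n b, ∃! u : X n → ℂ, u ∈ M n b ∧ (fun y => T k u y - l * u y) = v}

/-- The symbol. -/
def sy {n : ℕ} (k : Fin n → ℤ) (t : Fin n → ℝ) : ℂ :=
  1 / (n.factorial : ℂ) *
    ∑ π : Equiv.Perm (Fin n), Complex.exp (((∑ j, t j * (k (π j) : ℝ) : ℝ) : ℂ) * Complex.I)

/-- The homogeneous component of degree `d`. -/
def hc {n : ℕ} (d : ℤ) (u : X n → ℂ) (x : X n) : ℂ :=
  if (∑ j, (x j : ℤ)) = d then u x else 0

/-- **JOB BAS** (0.5 h), `theorem bas : S_bas`.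
Basic facts: `nn` is the norm of `lp (fun _ : X n => ℂ) 2` (`lp.norm_rpow_eq_tsum` or
`lp.norm_eq_tsum_rpow`), hence the triangle inequality and closure under sums and scalar multiples; a summable
family of nonnegative numbers dominates each part. -/
def S_bas : Prop :=
  ∀ n : ℕ, (∀ u v : X n → ℂ, Sq u → Sq v → Sq (fun x => u x + v x) ∧
      nn (fun x => u x + v x) ≤ nn u + nn v) ∧
    (∀ (c : ℂ) (u : X n → ℂ), Sq u → Sq (fun x => c * u x) ∧ nn (fun x => c * u x) = ‖c‖ * nn u) ∧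
    (∀ u : X n → ℂ, Sq u → nn u = 0 → u = 0) ∧
    (∀ u v : X n → ℂ, Sq u → (∀ x, ‖v x‖ ≤ ‖u x‖) → Sq v ∧ nn v ≤ nn u)

/-- **JOB BDD** (0.6 h), `theorem bdd (h : S_bas) : S_bdd`.
For a single `W k`: the sum over `y` of `‖W k u y‖ ^ 2` is the sum of `‖u x‖ ^ 2` over the `x` of the form
`y - k` (the map `y ↦ y - k` is injective on the set where it is defined), so it is at most `nn u ^ 2`
(`Summable.comp_injective`, `Summable.tsum_le_tsum_of_inj` or `tsum_subtype` comparisons). The average of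
`n!` such functions has norm at most `nn u` by the triangle inequality (`Fintype.card_perm`, induction on a
finset or `norm_sum_le` in `lp`). -/
def S_bdd : Prop := ∀ (n : ℕ) (k : Fin n → ℤ) (u : X n → ℂ), Sq u → Sq (T k u) ∧ nn (T k u) ≤ nn u

/-- **JOB INV** (0.6 h), `theorem inv (h : S_bas) (h1 : S_bdd) : S_inv`.
`M n b` is a linear subspace (closed under `+` and scalars by `S_bas`). `T k` is additive and homogeneous
(unfold `W`, `split_ifs`, `Finset.sum_add_distrib`). Invariance: `W k u (y ∘ σ) = W (k ∘ σ⁻¹) (u(· ∘ σ)) y`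
up to the reindexing: `(y ∘ σ) j - k j = (y - k ∘ σ⁻¹) (σ j)`, so for `u ∈ M n b` it is
`chi b σ * W (k ∘ σ⁻¹) u y`, and the sum over `π` of `W (k ∘ π ∘ σ⁻¹) u y` is the sum over all permutations
(`Equiv.sum_comp`, `Equiv.mulRight`). -/
def S_inv : Prop :=
  ∀ (n : ℕ) (k : Fin n → ℤ) (b : Bool),
    (∀ u ∈ M n b, T k u ∈ M n b) ∧
    (∀ u v : X n → ℂ, ∀ c : ℂ, T k (fun x => u x + c * v x) = fun y => T k u y + c * T k v y) ∧
    (∀ u ∈ M n b, ∀ v ∈ M n b, ∀ c : ℂ, (fun x => u x + c * v x) ∈ M n b)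

/-- **JOB BOX** (1.2 h), `theorem box (h : S_bas) : S_box`.
Let `κ` be the maximum of the `|k j|`, `N` large, `B_i = [c_i, c_i + N)` with `c_i = (i + 1) (N + 2 κ + 1)`
(disjoint intervals at distance more than `2 κ`, and `c_i ≥ κ`). For `x : X n` there is at most one permutation
`σ` with `x (σ i) ∈ B_i` for all `i`; put `u x = chi b σ * exp (- i ∑ i, t i * x (σ i))` for this `σ` and
`u x = 0` if there is none. Then `u ∈ M n b` (finite support), and `nn u ^ 2 = n! * N ^ n`. If `y` has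
`y (σ i) ∈ [c_i + κ, c_i + N - κ)` for all `i` then every `y - k ∘ π` lies in the support with the same `σ`
and `T k u y = sy k t * u y` (reindex the sum over `π` by `π ↦ π ∘ σ`). If no `σ` has
`y (σ i) ∈ [c_i - κ, c_i + N + κ)` for all `i` then `T k u y = u y = 0`. The other `y` are at most
`n! * ((N + 2 κ) ^ n - (N - 2 κ) ^ n)` many and there `‖T k u y - sy k t * u y‖ ≤ 2`. So the square of the norm
of the difference is at most `4 n! ((N + 2 κ) ^ n - (N - 2 κ) ^ n)`, which is at most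
`ε ^ 2 * n! * N ^ n` for large `N`. -/
def S_box : Prop :=
  ∀ (n : ℕ) (k : Fin n → ℤ) (b : Bool) (t : Fin n → ℝ) (ε : ℝ), 0 < ε →
    ∃ u ∈ M n b, 0 < nn u ∧ nn (fun y => T k u y - sy k t * u y) ≤ ε * nn u

/-- **JOB BAN** (1.0 h), `theorem ban (h : S_bas) (h1 : S_bdd) (h2 : S_inv) : S_ban`.
`M n b` is a closed subspace of the Banach space `lp (fun _ : X n => ℂ) 2` (`lp` functions with
`f (x ∘ π) = chi b π * f x`; coordinates are continuous), hence complete, and `T k - l` is a bijective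
continuous linear map of it; by the open mapping theorem (`ContinuousLinearEquiv.ofBijective` or
`ContinuousLinearMap.exists_preimage_norm_le`) the inverse is bounded. -/
def S_ban : Prop :=
  ∀ (n : ℕ) (k : Fin n → ℤ) (b : Bool) (l : ℂ), l ∉ Sp b k →
    ∃ C : ℝ, 0 < C ∧ ∀ u ∈ M n b, nn u ≤ C * nn (fun y => T k u y - l * u y)

/-- **JOB OUT** (0.6 h), `theorem out (h : S_bas) (h1 : S_bdd) (h2 : S_inv) : S_out`.
Neumann series on the Banach space `M n b` (see `S_ban`): `T k` has operator norm at most `1 < ‖l‖`, so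
`T k - l` is invertible (`spectrum.norm_le_norm_of_mem`, `Units.ofNearby`, or
`NormedRing.inverse_one_sub`). -/
def S_out : Prop := ∀ (n : ℕ) (k : Fin n → ℤ) (b : Bool) (l : ℂ), 1 < ‖l‖ → l ∉ Sp b k

/-- **JOB HCO** (0.6 h), `theorem hco (h : S_bas) (h1 : S_inv) : S_hco`.
`W k` raises the degree `∑ x j` by `∑ k j` and all `k ∘ π` have the same sum (`Equiv.sum_comp`), so
`hc (d + K) (T k u) = T k (hc d u)`. The degree is invariant under permutations, so `hc d` maps `M n b` to itself.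
The square of the norm is the sum over `d` of the squares (`Summable.tsum_sigma'` or `tsum_comm'`, or the fibres
of the degree map: `HasSum.sigma`, `Equiv.sigmaFiberEquiv`). -/
def S_hco : Prop :=
  ∀ (n : ℕ) (k : Fin n → ℤ) (b : Bool),
    (∀ (d : ℤ) (u : X n → ℂ), hc (d + ∑ j, k j) (T k u) = T k (hc d u)) ∧
    (∀ d, ∀ u ∈ M n b, hc d u ∈ M n b) ∧
    (∀ (d : ℤ) (u : X n → ℂ), d < 0 → hc d u = 0) ∧
    (∀ u : X n → ℂ, Sq u → HasSum (fun d : ℤ => nn (hc d u) ^ 2) (nn u ^ 2)) ∧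
    (∀ (d : ℤ) (u : X n → ℂ), Sq u → nn (hc d u) ≤ nn u)

/-- **JOB GRO** (1.0 h), `theorem gro (h : S_bas) (h1 : S_bdd) (h2 : S_inv) (h3 : S_ban) (h4 : S_hco) : S_gro`.
Let `K = ∑ j, k j > 0`, `C` the constant of `S_ban`. First let `v ∈ M n b` be homogeneous of degree `d`
(`hc d v = v`) and `u` the solution of `T k u - l u = v`. Taking components of degree `e`
(`S_hco`): `T k (hc (e - K) u) - l * hc e u = hc e v`. For `e < 0` the component `hc e u` is zero; by induction
(strong induction on `e`, step `K > 0`) `hc e u = 0` for all `e < d` and all `e` not congruent to `d` modulo `K`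
(not needed), `hc d u = - v / l`, and `hc (d + m K) u = - T^m v / l^(m+1)` by induction on `m`. So
`nn (T^m v) = ‖l‖^(m+1) nn (hc (d + m K) u) ≤ ‖l‖^(m+1) nn u ≤ ‖l‖^(m+1) C nn v`. For general `v ∈ M n b`:
`T^m (hc d v) = hc (d + m K) (T^m v)`, and the squares of the norms add up (`S_hco`), so
`nn (T^m v) ^ 2 = ∑ nn (T^m (hc d v)) ^ 2 ≤ (C ‖l‖^(m+1)) ^ 2 nn v ^ 2` (reindex the sum over `d` by the shift
`d ↦ d + m K`). -/
def S_gro : Prop :=
  ∀ (n : ℕ) (k : Fin n → ℤ) (b : Bool) (l : ℂ), 0 < ∑ j, k j → l ≠ 0 → l ∉ Sp b k →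
    ∃ C : ℝ, 0 < C ∧ ∀ (m : ℕ), ∀ v ∈ M n b, nn ((T k)^[m] v) ≤ C * ‖l‖ ^ m * nn v

/-- **JOB ZER** (0.6 h), `theorem zer (h : S_hco) : S_zer`.
`0` is in the spectrum if `K = ∑ j, k j > 0`: let `v` be the function with `v (σ) = chi b σ` at the points
`x = (σ 0, σ 1, …, σ (n-1))`, `σ` a permutation of `Fin n` (values `0, …, n - 1`), and `0` elsewhere for
`b = true`, and `v = ` the indicator of `x = 0` for `b = false`. It is in `M n b`, not zero, and homogeneous of degree
`d₀ = n (n - 1) / 2` (or `0`). Every element of `M n true` vanishes at points with two equal coordinates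
(transposition), so all its components of degree less than `d₀` vanish (distinct natural numbers have sum at
least `0 + 1 + … + (n-1)`, `Finset.sum_range_id_le` or `Fin` argument by sorting); the same is trivial for
`b = false`, `d₀ = 0`. If `T k u = v` with `u ∈ M n b` then `v = hc d₀ v = T k (hc (d₀ - K) u) = T k 0 = 0`,
a contradiction. -/
def S_zer : Prop := ∀ (n : ℕ) (k : Fin n → ℤ) (b : Bool), 0 < ∑ j, k j → (0 : ℂ) ∈ Sp b k

/-- **JOB DIS** (0.6 h), `theorem dis (h : S_bas) (h1 : S_bdd) (h2 : S_inv) (h3 : S_box) (h4 : S_gro) (h5 : S_zer) : S_dis`.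
`l = 0` is `S_zer`. Let `0 < ‖l‖ < 1` and suppose `l` is not in the spectrum; `C` from `S_gro`; choose `m` with
`C ‖l‖ ^ m < 1/4`. With `t = 0`, `sy k 0 = 1`; take `u` from `S_box` with `ε = 1 / (4 (m + 1))`. By induction
`nn (T^j u - u) ≤ j ε nn u` (`T^(j+1) u - u = T (T^j u - u) + (T u - u)`, `nn (T w) ≤ nn w`), so
`nn (T^m u) ≥ (1 - m ε) nn u ≥ 3/4 nn u`, contradiction with `nn (T^m u) ≤ 1/4 nn u`, `nn u > 0`. -/
def S_dis : Prop :=
  ∀ (n : ℕ) (k : Fin n → ℤ) (b : Bool) (l : ℂ), 0 < ∑ j, k j → ‖l‖ < 1 → l ∈ Sp b k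

/-- **JOB ADJ** (1.0 h), `theorem adj (h : S_bas) (h1 : S_bdd) (h2 : S_inv) : S_adj`.
On the Hilbert space `M n b` (closed subspace of `lp (fun _ : X n => ℂ) 2`) the adjoint of the restriction of
`T k` is the restriction of `T (-k)`: `∑ y, conj (v y) * W k u y = ∑ x, conj (W (-k) v x) * u x` (substitute
`y = x + k`), and the average over all `π`. If `T k - l` is bijective on `M n b` then it is invertible and so is
its adjoint `T (-k) - conj l` (`ContinuousLinearMap.adjoint`, `IsUnit.star`). -/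
def S_adj : Prop :=
  ∀ (n : ℕ) (k : Fin n → ℤ) (b : Bool) (l : ℂ), l ∉ Sp b k →
    (starRingEnd ℂ) l ∉ Sp b (fun j => - k j)

/-- **JOB FIN** (0.6 h), `theorem fin (h : S_bas) (h1 : S_bdd) (h2 : S_inv) (h3 : S_box) (h4 : S_ban) (h5 : S_out) (h6 : S_dis) (h7 : S_adj) : S_fin`.
(1) is `S_bdd`; (2): `S_box` with `t = 0` (`sy k 0 = 1`) and the triangle inequality.
(3): if `sy k t` were not in the spectrum, `S_ban` and `S_box` with `ε = 1 / (2 C)` give `nn u ≤ nn u / 2`.
(4): `S_out`. (5): for `‖l‖ > 1` use `S_out`; for `‖l‖ = 1` write `l = exp (i φ)`, `K = ∑ j, k j`, and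
`t j = φ / K` for all `j`: `sy k t = exp (i φ)`, so `l` is in the spectrum by (3). For `‖l‖ < 1`: if `K > 0`
`S_dis`; if `K < 0` then by `S_dis` `conj l` is in the spectrum for `-k`, and `S_adj` (with `k`) gives the
claim. -/
def S_fin : Prop :=
  ∀ (n : ℕ) (k : Fin n → ℤ) (b : Bool),
    (∀ u ∈ M n b, nn (T k u) ≤ nn u) ∧
    (∀ c : ℝ, c < 1 → ∃ u ∈ M n b, 0 < nn u ∧ c * nn u < nn (T k u)) ∧
    (∀ t : Fin n → ℝ, sy k t ∈ Sp b k) ∧
    (∀ l ∈ Sp b k, ‖l‖ ≤ 1) ∧
    (∑ j, k j ≠ 0 → Sp b k = Metric.closedBall (0 : ℂ) 1)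

end Pool.Agent.Q88.MT
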