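import Pool.Agent.Q88.MT.Stm

/-!
# Project MT, third part: the spectrum is contained in the convex hull of the symbol range
-/

set_option autoImplicit false

open Set Filter Topology

noncomputable section

namespace Pool.Agent.Q88.MT

/-- **JOB FOG** (1.2 h), `theorem fog (h : S_bas) (h1 : S_bdd) : S_fog`.
(General form of job FOU of `Stm2`.) Both sides of the inequality are continuous in `u` for the norm `nn`
(Cauchy-Schwarz, `nn (T k u) ≤ nn u`) and finitely supported `u` are dense, so let `u x = 0` unless all `x j < R`.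
Let `κ` be the maximum of the `|k j|` and `N > R + κ`; for `ξ ∈ (Fin n → Fin N)` put `t ξ = 2 π ξ / N` and
`û ξ = ∑ x, u x * exp (-i ∑ j, x j * t ξ j)`. Orthogonality of the characters gives
`∑ ξ, ‖û ξ‖ ^ 2 = N ^ n nn u ^ 2` and `∑ ξ, exp (-i ∑ j, k (π j) t ξ j) ‖û ξ‖ ^ 2 = N ^ n ∑ y, conj (u y) * W (k ∘ π) u y`
(the pairs `x`, `y` in the box with `y ≡ x + k ∘ π` modulo `N` are exactly those with `y = x + k ∘ π`), up to the
sign convention of the exponent. Averaging over `π`:
`∑ y, conj (u y) * T k u y = N ^ (-n) ∑ ξ, sy k (∓ t ξ) ‖û ξ‖ ^ 2`, and the real part of `c` times this is at most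
`r nn u ^ 2`. -/
def S_fog : Prop :=
  ∀ (n : ℕ) (k : Fin n → ℤ) (c : ℂ) (r : ℝ), (∀ t : Fin n → ℝ, (c * sy k t).re ≤ r) →
    ∀ u : X n → ℂ, Sq u → Summable (fun y => (starRingEnd ℂ) (u y) * T k u y) ∧
      (c * ∑' y, (starRingEnd ℂ) (u y) * T k u y).re ≤ r * nn u ^ 2

/-- **JOB CON** (1.0 h), `theorem con (h : S_bas) (h1 : S_bdd) (h2 : S_inv) (h3 : S_fog) : S_con`.
Suppose `r < (c * l).re`. `M n b` is a Hilbert space (closed subspace of `lp (fun _ : X n => ℂ) 2`), and for
`A = l - T k` on it `(c * ⟨u, A u⟩).re = (c * l).re nn u ^ 2 - (c * q).re ≥ ((c * l).re - r) nn u ^ 2`,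
`q = ∑ conj (u y) * T k u y`. So `c • A` is coercive, hence bijective (the operator and its adjoint are bounded
below; or the Lax-Milgram theorem in Mathlib, `IsCoercive.continuousLinearEquivOfBilin`; here `c ≠ 0` since
otherwise `r < 0` contradicts the hypothesis `0 ≤ r`), so `T k - l` is bijective and `l` is not in the
spectrum. -/
def S_con : Prop :=
  ∀ (n : ℕ) (k : Fin n → ℤ) (b : Bool) (c : ℂ) (r : ℝ), (∀ t : Fin n → ℝ, (c * sy k t).re ≤ r) →
    ∀ l ∈ Sp b k, (c * l).re ≤ r

/-- **JOB HUL** (0.5 h), `theorem hul (h : S_con) : S_hul`.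
If `l` is not in the closed convex set, `geometric_hahn_banach_closed_point` (or `closed_point`) gives a real
linear functional `f` on `ℂ` and `s` with `f a < s < f l` on the set; `f z = (c * z).re` with
`c = f 1 - i f i`. `S_con` with `r = s` gives `f l ≤ s`, a contradiction. -/
def S_hul : Prop :=
  ∀ (n : ℕ) (k : Fin n → ℤ) (b : Bool), Sp b k ⊆ closure (convexHull ℝ (range (sy k)))

end Pool.Agent.Q88.MT
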